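import Mathlib

/-!
# Project EU (MP_f6e960_lc): increasing-invariant copies of the density ideals of uniform measures

`D_n` consecutive intervals of length `d n`, `d n → ∞`; `U d` the ideal of the sets `A` with
`|A ∩ D_n| / d n → 0` (an Erdős–Ulam ideal). THEOREM: `U d` has an increasing-invariant isomorphic copy iff the number of
the `n` with `s ≤ d n < 2 s` is bounded (uniformly in `s`).
-/

set_option autoImplicit false

namespace Pool.Agent.J6H9.EU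

open Filter Topology

/-- the first point of the interval number `n` -/
def st (d : ℕ → ℕ) (n : ℕ) : ℕ := ∑ i ∈ Finset.range n, d i

/-- the consecutive intervals `D_n = [st n, st n + d n)` -/
def D (d : ℕ → ℕ) (n : ℕ) : Set ℕ := Set.Ico (st d n) (st d n + d n)

/-- the ideal of the sets `A` with `|A ∩ D_n| / d n → 0` -/
def U (d : ℕ → ℕ) : Set (Set ℕ) :=
  {A | Tendsto (fun n => ((A ∩ D d n).ncard : ℝ) / d n) atTop (𝓝 0)}

/-- increasing-invariance -/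
def IncInv (I : Set (Set ℕ)) : Prop :=
  ∀ B ∈ I, ∀ C : Set ℕ, (∀ n, (C ∩ Set.Iio n).ncard ≤ (B ∩ Set.Iio n).ncard) → C ∈ I

open Classical in
/-- the ideal `EU_f` -/
noncomputable def EU (f : ℕ → ℝ) : Set (Set ℕ) :=
  {A | Tendsto (fun n => (∑ i ∈ (Finset.range n).filter (· ∈ A), f i) / ∑ i ∈ Finset.range n, f i)
    atTop (𝓝 0)}

/-- Erdős–Ulam ideals -/
def IsErdosUlam (I : Set (Set ℕ)) : Prop :=
  ∃ f : ℕ → ℝ, (∀ n, 0 ≤ f n) ∧ Tendsto (fun n => ∑ i ∈ Finset.range n, f i) atTop atTop ∧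
    Tendsto (fun n => f n / ∑ i ∈ Finset.range (n + 1), f i) atTop (𝓝 0) ∧ I = EU f

/-- **EU-DEN** (100 lines). PROOF. `f x = 2 ^ n / d n` for `x ∈ D_n` (each `x` is in exactly one `D_n`; define `n` as
`Nat.findGreatest (fun n => st d n ≤ x) x`). The sum of `f` over `D_n` is `2 ^ n`, over `[0, st n)` it is `2 ^ n - 1`.
If `|A ∩ D_n| / d n → 0` then for `N ∈ D_n` the sum of `f` over `A ∩ [0, N)` is at most
`∑_{k ≤ n} 2 ^ k a_k`, `a_k = |A ∩ D_k| / d k`, and the sum over `[0, N)` is at least `2 ^ n - 1`; the ratio tends to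
zero. Conversely look at `N = st (n + 1)`: the ratio is at least `2 ^ n a_n / 2 ^ (n + 1)`. And for `x ∈ D_n`, `n ≥ 1`:
`f x / ∑_{i ≤ x} f i ≤ (2 ^ n / d n) / (2 ^ n - 1) → 0`. -/
def S_DEN : Prop := ∀ d : ℕ → ℕ, (∀ n, 0 < d n) → Tendsto d atTop atTop → IsErdosUlam (U d)

/-- **EU-SRT** (60 lines). Sorting. PROOF. `c v = sup {x | δ x ≤ v}` (a finite set), monotone in `v`;
`ι x = x + ∑_{w ≤ δ x} (c w + 1)` is injective and `δ x < δ y → ι x < ι y`. Compose `ℕ ≃ range ι`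
(`Equiv.ofInjective`) with the order isomorphism of the infinite set `range ι` with `ℕ`
(`Nat.Subtype.orderIsoOfNat`). -/
def S_SRT : Prop := ∀ δ : ℕ → ℕ, Tendsto δ atTop atTop →
  ∃ φ : Equiv.Perm ℕ, ∀ x y, δ x < δ y → φ x < φ y

/-- **EU-MED** (100 lines), the median trick. PROOF. Take `K = M + k + 1 + #{n | d n < 2 k + 24}`; let more than `K` of
the `n` have `s ≤ d n < 2 s`. Then `s ≥ k + 12` (otherwise all these `n` have `d n < 2 k + 24`), and at least `k + 1` of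
them are `≥ M`: let `N` be a set of exactly `k + 1` of them (if `k < 3` do the same with `k` replaced by `3`, i.e. work
with `k' = max k 3` from the beginning; `N` may have more elements than `k + 1`). For `n ∈ N` split `D_n` into `L_n`,
`H_n` with `φ a < φ b` for `a ∈ L_n`, `b ∈ H_n`, `|H_n| = ⌈d n / 2⌉` (`|H_n| ≤ s`), `|L_n| ≥ ⌊s / 2⌋` (e.g. the images
under `φ.symm` of the first elements of the finite set `φ(D_n)`). Let `m ∈ N` be such that the least element `p_m` of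
`φ(H_m)` is as large as possible; so `φ b < p_n ≤ p_m ≤ φ c` for `b ∈ L_n`, `c ∈ H_m`. `C = H_m`, `B` = the union of
subsets of `L_n`, `n ∈ N`, of `t = s / (k' + 1) + 1 ≤ ⌊s / 2⌋` elements: `|B| = (k' + 1) t ≥ s ≥ |C|` and
`|B ∩ D_n| = t ≤ s / (k' + 1) + 1 ≤ 2 d n / (k' + 1)`. -/
def S_MED : Prop := ∀ d : ℕ → ℕ, (∀ n, 0 < d n) → Tendsto d atTop atTop →
  (∀ K : ℕ, ∃ s : ℕ, K < {n | s ≤ d n ∧ d n < 2 * s}.ncard) → ∀ φ : Equiv.Perm ℕ, ∀ k M : ℕ,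
  ∃ (N : Finset ℕ) (B C : Finset ℕ), (∀ n ∈ N, M ≤ n) ∧ (∀ x ∈ B, ∃ n ∈ N, x ∈ D d n) ∧
    (∀ x ∈ C, ∃ n ∈ N, x ∈ D d n) ∧ C.card ≤ B.card ∧ (∀ b ∈ B, ∀ c ∈ C, φ b < φ c) ∧
    (∀ n, (((B : Set ℕ) ∩ D d n).ncard : ℝ) ≤ 2 * d n / (k + 1)) ∧
    ∃ m ∈ N, (d m : ℝ) / 2 ≤ ((C : Set ℕ) ∩ D d m).ncard

/-- **EU-UNI** (100 lines; uses `S_MED`). PROOF. Choose `N_k, B_k, C_k` for `k` and `M_k`, `M_0 = 0`,
`M_(k+1) > max N_k`, `M_(k+1) > M_k` (recursion). `B = ⋃ B_k`, `C = ⋃ C_k`. The `D_n` are pairwise disjoint, `N_k ⊆ [M_k, M_(k+1))`, so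
the `B_k` are pairwise disjoint and `B ∩ D_n ⊆ B_k ∩ D_n` for the `k` with `M_k ≤ n < M_(k+1)`; so `B ∈ U d`. `C ∉ U d`,
as `|C ∩ D_m| ≥ d m / 2` for infinitely many `m`. There are injections `j_k : C_k → B_k` with `φ (j_k c) < φ c`, so
`|φ(C) ∩ [0, n)| ≤ |φ(B) ∩ [0, n)|` for all `n`: the image ideal is not increasing-invariant. -/
def S_UNI : Prop := S_MED → ∀ d : ℕ → ℕ, (∀ n, 0 < d n) → Tendsto d atTop atTop →
  (∀ K : ℕ, ∃ s : ℕ, K < {n | s ≤ d n ∧ d n < 2 * s}.ncard) → ∀ φ : Equiv.Perm ℕ,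
  ¬ IncInv ((fun A : Set ℕ => φ '' A) '' U d)

/-- **EU-INV** (helper9; uses `S_SRT`). -/
def S_INV : Prop := S_SRT → ∀ d : ℕ → ℕ, (∀ n, 0 < d n) → Tendsto d atTop atTop → ∀ K : ℕ,
  (∀ s : ℕ, {n | s ≤ d n ∧ d n < 2 * s}.ncard ≤ K) →
  ∃ φ : Equiv.Perm ℕ, IncInv ((fun A : Set ℕ => φ '' A) '' U d)

end Pool.Agent.J6H9.EU
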