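import Pool.Agent.J6H9.EU.Stm

/-!
# Project EU: the image ideal is increasing-invariant (`S_INV`)
-/

set_option autoImplicit false

namespace Pool.Agent.J6H9.EU

open Filter Topology

lemma st_succ (d : ℕ → ℕ) (n : ℕ) : st d (n + 1) = st d n + d n := by
  simp [st, Finset.sum_range_succ]

lemma st_mono (d : ℕ → ℕ) : Monotone (st d) :=
  monotone_nat_of_le_succ fun n => by rw [st_succ]; omega

lemma le_st (d : ℕ → ℕ) (hd : ∀ n, 0 < d n) (n : ℕ) : n ≤ st d n := by
  induction n with
  | zero => exact Nat.zero_le _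
  | succ n ih =>
    rw [st_succ]
    have := hd n
    omega

/-- each point is in one of the intervals -/
lemma exists_D (d : ℕ → ℕ) (hd : ∀ n, 0 < d n) (x : ℕ) : ∃ n, x ∈ D d n := by
  classical
  have hex : ∃ n, x < st d n := ⟨x + 1, lt_of_lt_of_le (Nat.lt_succ_self x) (le_st d hd (x + 1))⟩
  have h0 : Nat.find hex ≠ 0 := by
    intro h
    have := Nat.find_spec hex
    rw [h] at this
    simp [st] at this
  obtain ⟨n, hn⟩ := Nat.exists_eq_succ_of_ne_zero h0
  refine ⟨n, ?_, ?_⟩
  · have := Nat.find_min hex (m := n) (by omega)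
    omega
  · have := Nat.find_spec hex
    rw [hn, Nat.succ_eq_add_one, st_succ] at this
    exact this

/-- only one -/
lemma D_unique (d : ℕ → ℕ) {x m n : ℕ} (hm : x ∈ D d m) (hn : x ∈ D d n) : m = n := by
  have key : ∀ a b : ℕ, a < b → x ∈ D d a → x ∈ D d b → False := by
    intro a b hab ha hb
    have h1 : st d (a + 1) ≤ st d b := st_mono d hab
    rw [st_succ] at h1
    have h2 := ha.2
    have h3 := hb.1
    omega
  rcases lt_trichotomy m n with h | h | h
  · exact (key m n h hm hn).elim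
  · exact h
  · exact (key n m h hn hm).elim

lemma D_finite (d : ℕ → ℕ) (n : ℕ) : (D d n).Finite := Set.finite_Ico _ _

/-- the number of the interval -/
noncomputable def ix (d : ℕ → ℕ) (hd : ∀ n, 0 < d n) (x : ℕ) : ℕ := (exists_D d hd x).choose

lemma ix_mem (d : ℕ → ℕ) (hd : ∀ n, 0 < d n) (x : ℕ) : x ∈ D d (ix d hd x) :=
  (exists_D d hd x).choose_spec

lemma ix_tendsto (d : ℕ → ℕ) (hd : ∀ n, 0 < d n) : Tendsto (ix d hd) atTop atTop := by
  rw [tendsto_atTop]
  intro b
  filter_upwards [eventually_ge_atTop (st d b)] with x hx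
  by_contra hlt
  rw [not_le] at hlt
  have h1 := (ix_mem d hd x).2
  have h2 : st d (ix d hd x + 1) ≤ st d b := st_mono d hlt
  rw [st_succ] at h2
  omega

/-- a set of indices with small sizes is finite -/
lemma fin_le (d : ℕ → ℕ) (h : Tendsto d atTop atTop) (v : ℕ) : {n | d n ≤ v}.Finite := by
  have h1 := (tendsto_atTop.1 h (v + 1))
  rw [eventually_atTop] at h1
  obtain ⟨a, ha⟩ := h1
  refine (Set.finite_Iio a).subset fun n hn => ?_
  by_contra hlt
  have h2 : a ≤ n := not_lt.1 hlt
  have h3 := ha n h2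
  have h4 : d n ≤ v := hn
  omega

/-- the sum of the sizes `≤ v` -/
lemma sum_sizes (d : ℕ → ℕ) (hd : ∀ n, 0 < d n) (h : Tendsto d atTop atTop) (K : ℕ)
    (hK : ∀ s : ℕ, {n | s ≤ d n ∧ d n < 2 * s}.ncard ≤ K) (v : ℕ) :
    ∑ n ∈ (fin_le d h v).toFinset, d n ≤ 2 * K * v := by
  classical
  induction v using Nat.strong_induction_on with
  | _ v ih =>
    rcases Nat.eq_zero_or_pos v with h0 | h0
    · subst h0
      have : (fin_le d h 0).toFinset = ∅ := by
        ext n
        simp only [Set.Finite.mem_toFinset, Set.mem_setOf_eq, Finset.notMem_empty, iff_false]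
        have := hd n
        omega
      rw [this]
      simp
    · have hlt : v / 2 < v := Nat.div_lt_self h0 (by norm_num)
      have ih' := ih (v / 2) hlt
      set S := (fin_le d h v).toFinset with hS
      have hsub : (fin_le d h (v / 2)).toFinset ⊆ S := by
        intro n hn
        rw [hS, Set.Finite.mem_toFinset] at *
        have h1 : d n ≤ v / 2 := hn
        show d n ≤ v
        omega
      rw [← Finset.sum_sdiff hsub]
      have hcard : (S \ (fin_le d h (v / 2)).toFinset).card ≤ K := by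
        have h1 := hK (v / 2 + 1)
        rw [← Set.ncard_coe_finset]
        refine le_trans (Set.ncard_le_ncard ?_ ?_) h1
        · intro n hn
          rw [Finset.mem_coe, Finset.mem_sdiff, hS, Set.Finite.mem_toFinset,
            Set.Finite.mem_toFinset] at hn
          have h2 : d n ≤ v := hn.1
          have h3 : ¬ d n ≤ v / 2 := hn.2
          show v / 2 + 1 ≤ d n ∧ d n < 2 * (v / 2 + 1)
          omega
        · refine (fin_le d h (2 * (v / 2 + 1))).subset fun n hn => ?_
          have h2 : d n < 2 * (v / 2 + 1) := hn.2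
          exact h2.le
      have h2 : ∑ n ∈ S \ (fin_le d h (v / 2)).toFinset, d n ≤ K * v := by
        calc ∑ n ∈ S \ (fin_le d h (v / 2)).toFinset, d n
            ≤ ∑ _n ∈ S \ (fin_le d h (v / 2)).toFinset, v := by
              refine Finset.sum_le_sum fun n hn => ?_
              rw [Finset.mem_sdiff, hS, Set.Finite.mem_toFinset] at hn
              exact hn.1
          _ = (S \ (fin_le d h (v / 2)).toFinset).card * v := by
              rw [Finset.sum_const, smul_eq_mul]
          _ ≤ K * v := Nat.mul_le_mul_right v hcard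
      have h3 : 2 * K * (v / 2) ≤ K * v := by
        have : 2 * (v / 2) ≤ v := Nat.mul_div_le v 2
        calc 2 * K * (v / 2) = K * (2 * (v / 2)) := by ring
          _ ≤ K * v := Nat.mul_le_mul_left K this
      calc _ ≤ K * v + K * v := by
            refine Nat.add_le_add h2 (le_trans ih' h3)
        _ = 2 * K * v := by ring

/-- the weighted averages tend to zero -/
lemma toeplitz (d : ℕ → ℕ) (hd : ∀ n, 0 < d n) (h : Tendsto d atTop atTop) (K : ℕ)
    (hK : ∀ s : ℕ, {n | s ≤ d n ∧ d n < 2 * s}.ncard ≤ K) (c : ℕ → ℕ)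
    (hc : Tendsto (fun n => (c n : ℝ) / d n) atTop (𝓝 0)) :
    Tendsto (fun m => ((∑ n ∈ (fin_le d h (d m)).toFinset, c n : ℕ) : ℝ) / d m) atTop (𝓝 0) := by
  classical
  rw [Metric.tendsto_atTop]
  intro ε hε
  have hη : 0 < ε / (2 * (2 * K + 1)) := by positivity
  obtain ⟨n0, hn0⟩ := (Metric.tendsto_atTop.1 hc) _ hη
  -- the first terms
  set R : ℕ := ∑ n ∈ Finset.range n0, c n with hR
  have hdm : Tendsto (fun m => (d m : ℝ)) atTop atTop := tendsto_natCast_atTop_atTop.comp h
  have h1 : Tendsto (fun m => (R : ℝ) / d m) atTop (𝓝 0) := tendsto_const_nhds.div_atTop hdm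
  obtain ⟨m0, hm0⟩ := (Metric.tendsto_atTop.1 h1) (ε / 2) (by positivity)
  refine ⟨m0, fun m hm => ?_⟩
  have hdm0 : (0 : ℝ) < d m := Nat.cast_pos.mpr (hd m)
  have h2 := hm0 m hm
  rw [Real.dist_eq, sub_zero, abs_of_nonneg (by positivity)] at h2
  rw [Real.dist_eq, sub_zero, abs_of_nonneg (by positivity)]
  set S := (fin_le d h (d m)).toFinset with hS
  have h3 : ((∑ n ∈ S, c n : ℕ) : ℝ) ≤ R + ε / (2 * (2 * K + 1)) * (2 * K * d m) := by
    have h4 : ∀ n ∈ S, (c n : ℝ) ≤ (if n < n0 then (c n : ℝ) else 0) +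
        ε / (2 * (2 * K + 1)) * d n := by
      intro n _
      have hdn : (0 : ℝ) < d n := Nat.cast_pos.mpr (hd n)
      split_ifs with hn
      · have : 0 ≤ ε / (2 * (2 * K + 1)) * (d n : ℝ) := by positivity
        linarith
      · have h5 := hn0 n (not_lt.1 hn)
        rw [Real.dist_eq, sub_zero, abs_of_nonneg (by positivity), div_lt_iff₀ hdn] at h5
        linarith
    calc ((∑ n ∈ S, c n : ℕ) : ℝ) = ∑ n ∈ S, (c n : ℝ) := by push_cast; rfl
      _ ≤ ∑ n ∈ S, ((if n < n0 then (c n : ℝ) else 0) + ε / (2 * (2 * K + 1)) * d n) :=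
          Finset.sum_le_sum h4
      _ = ∑ n ∈ S, (if n < n0 then (c n : ℝ) else 0) +
          ε / (2 * (2 * K + 1)) * ∑ n ∈ S, (d n : ℝ) := by
          rw [Finset.sum_add_distrib, Finset.mul_sum]
      _ ≤ R + ε / (2 * (2 * K + 1)) * (2 * K * d m) := by
          refine add_le_add ?_ (mul_le_mul_of_nonneg_left ?_ hη.le)
          · rw [← Finset.sum_filter]
            calc ∑ n ∈ S.filter (fun n => n < n0), (c n : ℝ)
                ≤ ∑ n ∈ Finset.range n0, (c n : ℝ) := by
                  refine Finset.sum_le_sum_of_subset_of_nonneg ?_ fun _ _ _ => Nat.cast_nonneg _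
                  intro n hn
                  exact Finset.mem_range.2 (Finset.mem_filter.1 hn).2
              _ = R := by rw [hR]; push_cast; rfl
          · have := sum_sizes d hd h K hK (d m)
            rw [← hS] at this
            exact_mod_cast this
  rw [div_lt_iff₀ hdm0]
  have h6 : (R : ℝ) < ε / 2 * d m := by
    rw [div_lt_iff₀ hdm0] at h2
    exact h2
  have h7 : ε / (2 * (2 * K + 1)) * (2 * K * d m) ≤ ε / 2 * d m := by
    have : ε / (2 * (2 * K + 1)) * (2 * K * d m) = ε / 2 * d m * (2 * K / (2 * K + 1)) := by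
      field_simp
    rw [this]
    refine mul_le_of_le_one_right (by positivity) ?_
    rw [div_le_one (by positivity)]
    linarith
  linarith

/-- **EU-INV** -/
theorem inv : S_INV := by
  classical
  intro hsrt d hd h K hK
  set δ : ℕ → ℕ := fun x => d (ix d hd x) with hδ
  have hδt : Tendsto δ atTop atTop := h.comp (ix_tendsto d hd)
  obtain ⟨φ, hφ⟩ := hsrt δ hδt
  refine ⟨φ, ?_⟩
  have hfin : ∀ v, {x | δ x ≤ v}.Finite := fun v => fin_le δ hδt v
  -- initial segments
  have hinit : ∀ v, ∃ N, φ '' {x | δ x ≤ v} = Set.Iio N := by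
    intro v
    have hF : (φ '' {x | δ x ≤ v}).Finite := (hfin v).image φ
    have hdown : ∀ y ∈ φ '' {x | δ x ≤ v}, ∀ z, z < y → z ∈ φ '' {x | δ x ≤ v} := by
      rintro y ⟨x, hx, rfl⟩ z hz
      refine ⟨φ.symm z, ?_, φ.apply_symm_apply z⟩
      by_contra hlt
      have h1 : v < δ (φ.symm z) := not_le.1 hlt
      have h2 : δ x < δ (φ.symm z) := lt_of_le_of_lt hx h1
      have h3 := hφ _ _ h2
      rw [φ.apply_symm_apply] at h3
      omega
    rcases (φ '' {x | δ x ≤ v}).eq_empty_or_nonempty with he | hne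
    · exact ⟨0, by rw [he]; ext x; simp⟩
    · obtain ⟨y, hy, hmax⟩ := hF.exists_maximal hne
      refine ⟨y + 1, ?_⟩
      ext z
      rw [Set.mem_Iio]
      constructor
      · intro hz
        by_contra hlt
        have h1 : y ≤ z := by omega
        have h2 := hmax hz h1
        omega
      · intro hz
        rcases Nat.lt_succ_iff_lt_or_eq.1 hz with h1 | h1
        · exact hdown y hy z h1
        · rw [h1]
          exact hy
  rintro B ⟨B0, hB0, rfl⟩ C hC
  refine ⟨φ ⁻¹' C, ?_, Set.image_preimage_eq C φ.surjective⟩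
  -- counting
  have hcount : ∀ m, ((φ ⁻¹' C) ∩ D d m).ncard ≤
      ∑ n ∈ (fin_le d h (d m)).toFinset, (B0 ∩ D d n).ncard := by
    intro m
    obtain ⟨N, hN⟩ := hinit (d m)
    have h1 : (φ ⁻¹' C) ∩ D d m ⊆ (φ ⁻¹' C) ∩ {x | δ x ≤ d m} := by
      intro x hx
      refine ⟨hx.1, ?_⟩
      show d (ix d hd x) ≤ d m
      rw [D_unique d (ix_mem d hd x) hx.2]
    have h2 : ((φ ⁻¹' C) ∩ {x | δ x ≤ d m}).ncard = (C ∩ Set.Iio N).ncard := by
      rw [← hN, ← Set.ncard_image_of_injective _ φ.injective]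
      congr 1
      ext y
      constructor
      · rintro ⟨x, hx, rfl⟩
        exact ⟨hx.1, x, hx.2, rfl⟩
      · rintro ⟨hy, x, hx, rfl⟩
        exact ⟨x, ⟨hy, hx⟩, rfl⟩
    have h3 : ((φ '' B0) ∩ Set.Iio N).ncard = (B0 ∩ {x | δ x ≤ d m}).ncard := by
      rw [← hN, ← Set.image_inter φ.injective, Set.ncard_image_of_injective _ φ.injective]
    have h4 : B0 ∩ {x | δ x ≤ d m} ⊆
        ⋃ n ∈ (fin_le d h (d m)).toFinset, (B0 ∩ D d n) := by
      intro x hx
      rw [Set.mem_iUnion₂]
      refine ⟨ix d hd x, ?_, hx.1, ix_mem d hd x⟩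
      rw [Set.Finite.mem_toFinset]
      exact hx.2
    calc ((φ ⁻¹' C) ∩ D d m).ncard ≤ ((φ ⁻¹' C) ∩ {x | δ x ≤ d m}).ncard :=
          Set.ncard_le_ncard h1 ((hfin _).inter_of_right _)
      _ = (C ∩ Set.Iio N).ncard := h2
      _ ≤ ((φ '' B0) ∩ Set.Iio N).ncard := hC N
      _ = (B0 ∩ {x | δ x ≤ d m}).ncard := h3
      _ ≤ (⋃ n ∈ (fin_le d h (d m)).toFinset, (B0 ∩ D d n)).ncard := by
          refine Set.ncard_le_ncard h4 ?_
          exact (fin_le d h (d m)).toFinset.finite_toSet.biUnion fun n _ =>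
            (D_finite d n).inter_of_right _
      _ ≤ ∑ n ∈ (fin_le d h (d m)).toFinset, (B0 ∩ D d n).ncard :=
          Finset.set_ncard_biUnion_le _ _
  have hT := toeplitz d hd h K hK (fun n => (B0 ∩ D d n).ncard) hB0
  refine squeeze_zero (fun m => by positivity) (fun m => ?_) hT
  refine div_le_div_of_nonneg_right ?_ (Nat.cast_nonneg _)
  exact_mod_cast hcount m

end Pool.Agent.J6H9.EU
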